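import Mathlib

set_option autoImplicit false

namespace Pool.Agent.H143.QueensSQ

open Finset

/-- the squares `(i, j)`, `1 ≤ i, j ≤ n`, of the `n × n` board -/
noncomputable def board (n : ℕ) : Finset (ℤ × ℤ) := Finset.Icc (1 : ℤ) n ×ˢ Finset.Icc (1 : ℤ) n

/-- `P` is a queens pattern of the `n × n` board: `n` squares, no two in the same row, the same
column or the same diagonal -/
def IsQueens (n : ℕ) (P : Finset (ℤ × ℤ)) : Prop :=
  P ⊆ board n ∧ P.card = n ∧ ∀ s ∈ P, ∀ t ∈ P, s ≠ t →
    s.1 ≠ t.1 ∧ s.2 ≠ t.2 ∧ s.1 - s.2 ≠ t.1 - t.2 ∧ s.1 + s.2 ≠ t.1 + t.2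

/-- `P` is invariant under the half-turn about the centre of the `n × n` board -/
def IsCentro (n : ℕ) (P : Finset (ℤ × ℤ)) : Prop :=
  ∀ i j : ℤ, (i, j) ∈ P ↔ ((n : ℤ) + 1 - i, (n : ℤ) + 1 - j) ∈ P

/-- there are `k` pairwise disjoint centrosymmetric queens patterns on the `n × n` board -/
def HasPacking (n k : ℕ) : Prop :=
  ∃ F : Fin k → Finset (ℤ × ℤ), (∀ a, IsQueens n (F a) ∧ IsCentro n (F a)) ∧
    ∀ a b, a ≠ b → Disjoint (F a) (F b)

/-- `SQ(n)`: the largest `k` such that there are `k` pairwise disjoint centrosymmetric queens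
patterns on the `n × n` board -/
noncomputable def SQ (n : ℕ) : ℕ := sSup {k | HasPacking n k}

/-! ### The upper bound -/

lemma HasPacking.le {n k : ℕ} (hn : 2 ≤ n) (h : HasPacking n k) : k ≤ n - 2 := by
  obtain ⟨F, hF, hd⟩ := h
  have hrow : ∀ a, ∃ c : ℤ, ((1 : ℤ), c) ∈ F a := by
    intro a
    obtain ⟨⟨hsub, hcard, hq⟩, -⟩ := hF a
    have hinj : Set.InjOn (fun s : ℤ × ℤ => s.1) (F a : Set (ℤ × ℤ)) := by
      intro s hs t ht hst
      by_contra hne
      exact (hq s hs t ht hne).1 hst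
    have hc : ((F a).image (fun s : ℤ × ℤ => s.1)).card = n := by
      rw [Finset.card_image_of_injOn hinj, hcard]
    have hs : (F a).image (fun s : ℤ × ℤ => s.1) = Finset.Icc (1 : ℤ) n := by
      apply Finset.eq_of_subset_of_card_le
      · intro x hx
        rw [Finset.mem_image] at hx
        obtain ⟨s, hs, rfl⟩ := hx
        have := hsub hs
        rw [board, Finset.mem_product] at this
        exact this.1
      · rw [hc]; simp
    have h1 : (1 : ℤ) ∈ (F a).image (fun s : ℤ × ℤ => s.1) := by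
      rw [hs, Finset.mem_Icc]; omega
    rw [Finset.mem_image] at h1
    obtain ⟨s, hs', h⟩ := h1
    exact ⟨s.2, by rw [← h]; exact hs'⟩
  choose c hc using hrow
  have hcr : ∀ a, c a ∈ Finset.Icc (2 : ℤ) ((n : ℤ) - 1) := by
    intro a
    obtain ⟨⟨hsub, hcard, hq⟩, hcen⟩ := hF a
    have h1 := hsub (hc a)
    simp only [board, Finset.mem_product, Finset.mem_Icc] at h1
    have h2 := (hcen 1 (c a)).1 (hc a)
    have hne : ((1 : ℤ), c a) ≠ ((n : ℤ) + 1 - 1, (n : ℤ) + 1 - c a) := by
      intro h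
      have := congrArg Prod.fst h
      simp only at this
      omega
    have h3 := hq _ (hc a) _ h2 hne
    simp only at h3
    rw [Finset.mem_Icc]
    omega
  have hci : Function.Injective c := by
    intro a b hab
    by_contra hne
    have h1 := hc a
    rw [hab] at h1
    exact (Finset.disjoint_left.1 (hd a b hne)) h1 (hc b)
  have h4 : (Finset.univ : Finset (Fin k)).card ≤ (Finset.Icc (2 : ℤ) ((n : ℤ) - 1)).card :=
    Finset.card_le_card_of_injOn c (fun a _ => hcr a) hci.injOn
  rw [Finset.card_univ, Fintype.card_fin, Int.card_Icc] at h4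
  omega

lemma bdd {n : ℕ} (hn : 2 ≤ n) : BddAbove {k | HasPacking n k} :=
  ⟨n - 2, fun _ hk => HasPacking.le hn hk⟩

lemma HasPacking.le_SQ {n k : ℕ} (hn : 2 ≤ n) (h : HasPacking n k) : k ≤ SQ n :=
  le_csSup (bdd hn) h

lemma SQ_le {n : ℕ} (hn : 2 ≤ n) : SQ n ≤ n - 2 := by
  apply csSup_le
  · exact ⟨0, fun a => a.elim0, fun a => a.elim0, fun a => a.elim0⟩
  · exact fun k hk => HasPacking.le hn hk

lemma SQ_eq {n : ℕ} (hn : 2 ≤ n) (h : HasPacking n (n - 2)) : SQ n = n - 2 :=
  le_antisymm (SQ_le hn) (h.le_SQ hn)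

/-! ### Packings given by functions -/

lemma hasPacking_of_fun (n k : ℕ) (f : ℕ → ℕ → ℕ)
    (h1 : ∀ a < k, ∀ i, 1 ≤ i → i ≤ n → 1 ≤ f a i ∧ f a i ≤ n)
    (h2 : ∀ a < k, ∀ i, 1 ≤ i → i ≤ n → ∀ j, 1 ≤ j → j < i →
      f a i ≠ f a j ∧ i + f a i ≠ j + f a j ∧ i + f a j ≠ j + f a i)
    (h3 : ∀ a < k, ∀ i, 1 ≤ i → i ≤ n → f a (n + 1 - i) + f a i = n + 1)
    (h4 : ∀ a < k, ∀ b < a, ∀ i, 1 ≤ i → i ≤ n → f a i ≠ f b i) : HasPacking n k := by
  have key : ∀ (a : ℕ) (i j : ℤ), (i, j) ∈ (Finset.Icc 1 n).image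
      (fun t : ℕ => ((t : ℤ), (f a t : ℤ))) ↔ ∃ t : ℕ, 1 ≤ t ∧ t ≤ n ∧ (t : ℤ) = i ∧
        (f a t : ℤ) = j := by
    intro a i j
    simp only [Finset.mem_image, Finset.mem_Icc, Prod.mk.injEq]
    constructor
    · rintro ⟨t, ⟨h, h'⟩, h'', h'''⟩; exact ⟨t, h, h', h'', h'''⟩
    · rintro ⟨t, h, h', h'', h'''⟩; exact ⟨t, ⟨h, h'⟩, h'', h'''⟩
  refine ⟨fun a => (Finset.Icc 1 n).image (fun t : ℕ => ((t : ℤ), (f a t : ℤ))), ?_, ?_⟩
  · intro a
    refine ⟨⟨?_, ?_, ?_⟩, ?_⟩
    · rintro ⟨i, j⟩ h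
      rw [key] at h
      obtain ⟨t, ht, ht', rfl, rfl⟩ := h
      have := h1 a a.2 t ht ht'
      simp only [board, Finset.mem_product, Finset.mem_Icc]
      omega
    · rw [Finset.card_image_of_injective]
      · simp
      · intro s t h
        have := congrArg Prod.fst h
        simpa using this
    · rintro ⟨i, j⟩ h ⟨i', j'⟩ h' hne
      rw [key] at h h'
      obtain ⟨t, ht, ht', rfl, rfl⟩ := h
      obtain ⟨s, hs, hs', rfl, rfl⟩ := h'
      have hts : t ≠ s := by
        rintro rfl
        exact hne rfl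
      simp only
      rcases lt_or_gt_of_ne hts with hlt | hlt
      · have := h2 a a.2 s hs hs' t ht hlt
        omega
      · have := h2 a a.2 t ht ht' s hs hlt
        omega
    · intro i j
      rw [key, key]
      constructor
      · rintro ⟨t, ht, ht', rfl, rfl⟩
        have := h3 a a.2 t ht ht'
        exact ⟨n + 1 - t, by omega, by omega, by omega, by omega⟩
      · rintro ⟨t, ht, ht', h, h'⟩
        have := h3 a a.2 t ht ht'
        exact ⟨n + 1 - t, by omega, by omega, by omega, by omega⟩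
  · have hlt : ∀ a b : Fin k, b < a → Disjoint
        ((Finset.Icc 1 n).image (fun t : ℕ => ((t : ℤ), (f a t : ℤ))))
        ((Finset.Icc 1 n).image (fun t : ℕ => ((t : ℤ), (f b t : ℤ)))) := by
      intro a b hba
      rw [Finset.disjoint_left]
      rintro ⟨i, j⟩ h h'
      rw [key] at h h'
      obtain ⟨t, ht, ht', rfl, rfl⟩ := h
      obtain ⟨s, hs, hs', h5, h6⟩ := h'
      have hst : s = t := by exact_mod_cast h5
      subst hst
      have := h4 a a.2 b hba s ht ht'
      exact this (by exact_mod_cast h6.symm)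
    intro a b hab
    rcases lt_or_gt_of_ne hab with h | h
    · exact (hlt b a h).symm
    · exact hlt a b h

/-! ### Explicit packings -/

/-- column of the queen of pattern `a` in row `i`, read off from the digits of `B` -/
def dig (B n a i : ℕ) : ℕ := (B / 2 ^ (6 * (a * n + (i - 1)))) % 64

def chk (B n k : ℕ) : Bool :=
  (List.range k).all fun a => (List.range n).all fun i' =>
    (Nat.ble 1 (dig B n a (i' + 1)) && Nat.ble (dig B n a (i' + 1)) n &&
      Nat.beq (dig B n a (n - i') + dig B n a (i' + 1)) (n + 1)) &&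
    ((List.range i').all fun j' =>
      (!(Nat.beq (dig B n a (i' + 1)) (dig B n a (j' + 1)))) &&
      (!(Nat.beq (i' + 1 + dig B n a (i' + 1)) (j' + 1 + dig B n a (j' + 1)))) &&
      (!(Nat.beq (i' + 1 + dig B n a (j' + 1)) (j' + 1 + dig B n a (i' + 1))))) &&
    ((List.range a).all fun b => !(Nat.beq (dig B n a (i' + 1)) (dig B n b (i' + 1))))

lemma hasPacking_of_chk (B n k : ℕ) (h : chk B n k = true) : HasPacking n k := by
  simp only [chk, List.all_eq_true, List.mem_range, Bool.and_eq_true, Bool.not_eq_true',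
    Nat.ble_eq] at h
  have nb : ∀ x y : ℕ, Nat.beq x y = false → x ≠ y := by
    intro x y hxy he
    rw [he, Nat.beq_refl] at hxy
    exact absurd hxy (by decide)
  refine hasPacking_of_fun n k (dig B n) ?_ ?_ ?_ ?_
  · intro a ha i hi hin
    have h5 := (h a ha (i - 1) (by omega)).1.1
    rw [show i - 1 + 1 = i by omega] at h5
    exact h5.1
  · intro a ha i hi hin j hj hji
    have h5 := (h a ha (i - 1) (by omega)).1.2 (j - 1) (by omega)
    rw [show i - 1 + 1 = i by omega, show j - 1 + 1 = j by omega] at h5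
    exact ⟨nb _ _ h5.1.1, nb _ _ h5.1.2, nb _ _ h5.2⟩
  · intro a ha i hi hin
    have h5 := (h a ha (i - 1) (by omega)).1.1.2
    rw [show i - 1 + 1 = i by omega, show n - (i - 1) = n + 1 - i by omega] at h5
    exact Nat.eq_of_beq_eq_true h5
  · intro a ha b hb i hi hin
    have h5 := (h a ha (i - 1) (by omega)).2 b hb
    rw [show i - 1 + 1 = i by omega] at h5
    exact nb _ _ h5

def B20 : ℕ :=
  0x1c44cb2124090463d43050cd28244e2523c238a04521110d4142c74c60cc3031931cb51034444814128e08f48939108a34314c50f1812504882d31070873503110ca18150f2d21091483932811cf4490924083450d330418e50b2d438610c4c314d2104822513c704a4ce20524448b3d404628344c40d1c210d2525052cf1d308e18a4010cc21114a1143c83024873834c93460512d040b44118d2530ce1d208c20f5042854483030502863824c73cb1544893440c950828e1914d014210f1cb34131248c04d2c73c408541344638a2142431902870d335444930404809238b14f2064090944472d20ca3840533053cd34f14c4c110e28348b1d15022501883c52ce48220110c25150d4c31ca406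

lemma chk20 : chk B20 20 18 = true := by decide +kernel

def B24 : ℕ :=
  0x24c3d60875042d845318804e5454970ca3502941111cc4cb60341708958138635221514f3c554848d18e0562425d00d82d330744450a40d2835d21553812064d160b1141c258f3091953424582c53c948358740a50e0485cc1134c43172013942901d60d224f14b61108d5461c350c3c855808e1894132d704444a3455922105c70ce61334529510f50c1812d648225144909258b0463143c454a14d4d83831d740849614d2911015cb4d024638261520f3140c71532102c429258230160d5c31cf54e25119430a40605744354714b3944845880984c93cd34f25360221611250e2c51d50d15c119028c5064493953c70d735804c09648a10b4084c50d139818f09014d5521c431425729304b21611260b4143022060ca3d64d15cd1493811d554704e24535745358f28318808c5102d84845882c14ca5c950c1074953454023c660e44308b1ca54324d4d16141412063105843d23972d84c530958a4955c84421073c340d50604e3811943500cf1c409121755229624c15360b5ce48f11640c1880455184533490d52872c2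

lemma chk24 : chk B24 24 22 = true := by decide +kernel

def B26 : ℕ :=
  0x14b1153544410cc2194890933d868a1ce19741620f24305754b39408a1564591cd40611a6123134cc49868419034765158528250e2d55c10c93c85905c638729a60f4c225264830305150d5442c511464e4080d168531254624f5812984cb3421d724351a44d0953081501172d64cf19938a0476124981c128e6463d358b5c440520c5423516940c95c708d2d360a0563c919548c15a4432103995041d720b5593c528e25a60305235158c0864131143063424c56984125c729150424b0c158864e54f3d53992160432c911444a1d749061a15308d18c5044d018231644d4810d868938a14f6552c85c719328c5182c958404e09935a5c54900c73d12152cd54a4815992031c43cc5d461308568944639040e19125a1424d851730f1070c865605229534b54844f1c341215768d64238111624b61430a4c60d63075cb48e64629305a21154234940450f15835205664a10f50b1834c861540731744215a24e3896850915cc1d05582130c62d43c429958148d6053d411024d0954486814ca1993922d71cc5830915883093545da0d52d01980441ce48f4c529929a4090cc21754239650714d6461133d848b0514412d260f4c41993451d458e0955c830325068a64a1533d238710160640b54369750d24c216442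

lemma chk26 : chk B26 26 24 = true := by decide +kernel



/-! ### The general lower bound -/

lemma coprime_of_lt_minFac {m t : ℕ} (ht : 1 ≤ t) (h : t < m.minFac) : Nat.Coprime t m := by
  by_contra hc
  have hg : 2 ≤ Nat.gcd t m := by
    have h0 : Nat.gcd t m ≠ 0 := by
      intro h0
      have := (Nat.gcd_eq_zero_iff.1 h0).1
      omega
    have h1 : Nat.gcd t m ≠ 1 := hc
    omega
  have h2 := Nat.minFac_le_of_dvd hg (Nat.gcd_dvd_right t m)
  have h3 := Nat.le_of_dvd (by omega) (Nat.gcd_dvd_left t m)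
  omega

lemma eq_of_dvd_mul {m t : ℕ} (ht : 1 ≤ t) (h : t < m.minFac) {i j : ℤ} (hi : 0 ≤ i) (him : i < m)
    (hj : 0 ≤ j) (hjm : j < m) (hd : (m : ℤ) ∣ (t : ℤ) * (i - j)) : i = j := by
  have hc : IsCoprime (m : ℤ) (t : ℤ) :=
    (Nat.isCoprime_iff_coprime.2 (coprime_of_lt_minFac ht h)).symm
  have h1 : (m : ℤ) ∣ i - j := hc.dvd_of_dvd_mul_left hd
  have h2 : i - j = 0 := Int.eq_zero_of_abs_lt_dvd h1 (by rw [abs_lt]; omega)
  omega

theorem lower (n : ℕ) (h5 : 5 ≤ (n + 1).minFac) : HasPacking n ((n + 1).minFac - 3) := by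
  set m := n + 1 with hm
  have hpm : m.minFac ≤ m := Nat.minFac_le (by omega)
  have hm0 : (0 : ℤ) < m := by omega
  have hdiv : ∀ k i : ℕ, (m : ℤ) ∣ (k : ℤ) * i - (((k * i) % m : ℕ) : ℤ) := by
    intro k i
    refine ⟨((k * i / m : ℕ) : ℤ), ?_⟩
    have h := Nat.div_add_mod (k * i) m
    have h' : ((m * (k * i / m) + (k * i) % m : ℕ) : ℤ) = ((k * i : ℕ) : ℤ) := by rw [h]
    push_cast at h' ⊢
    linarith
  have hlt : ∀ k i : ℕ, (((k * i) % m : ℕ) : ℤ) < m := by
    intro k i
    exact_mod_cast Nat.mod_lt _ (by omega)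
  have hpos : ∀ k i : ℕ, 1 ≤ k → k < m.minFac → 1 ≤ i → i < m → 1 ≤ (k * i) % m := by
    intro k i hk hk' hi hi'
    by_contra hc
    have h0 : (k * i) % m = 0 := by omega
    have h1 := hdiv k i
    rw [h0] at h1
    have := eq_of_dvd_mul (m := m) (t := k) hk hk' (i := (i : ℤ)) (j := 0) (by omega)
      (by exact_mod_cast hi') le_rfl hm0 (by simpa using h1)
    omega
  refine hasPacking_of_fun n (m.minFac - 3) (fun a i => ((a + 2) * i) % m) ?_ ?_ ?_ ?_
  · intro a ha i hi hin
    have h1 := hpos (a + 2) i (by omega) (by omega) hi (by omega)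
    have h2 : ((a + 2) * i) % m < m := Nat.mod_lt _ (by omega)
    omega
  · intro a ha i hi hin j hj hji
    have h1 := hdiv (a + 2) i
    have h2 := hdiv (a + 2) j
    have h3 := dvd_sub h1 h2
    refine ⟨?_, ?_, ?_⟩
    · intro h
      rw [h] at h3
      have h4 := eq_of_dvd_mul (m := m) (t := a + 2) (by omega) (by omega) (i := (i : ℤ))
        (j := (j : ℤ)) (by omega) (by omega) (by omega) (by omega)
        (by
          have e : ((a + 2 : ℕ) : ℤ) * ((i : ℤ) - j) = ((a + 2 : ℕ) : ℤ) * (i : ℤ) -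
              ((((a + 2) * j) % m : ℕ) : ℤ) - (((a + 2 : ℕ) : ℤ) * (j : ℤ) -
              ((((a + 2) * j) % m : ℕ) : ℤ)) := by ring
          rw [e]; exact h3)
      omega
    · intro h
      have h' : (i : ℤ) + ((((a + 2) * i) % m : ℕ) : ℤ) = (j : ℤ) + ((((a + 2) * j) % m : ℕ) : ℤ) := by
        exact_mod_cast h
      have h4 := eq_of_dvd_mul (m := m) (t := a + 3) (by omega) (by omega) (i := (i : ℤ))
        (j := (j : ℤ)) (by omega) (by omega) (by omega) (by omega)
        (by
          have e : ((a + 3 : ℕ) : ℤ) * ((i : ℤ) - j) = ((a + 2 : ℕ) : ℤ) * (i : ℤ) -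
              ((((a + 2) * i) % m : ℕ) : ℤ) - (((a + 2 : ℕ) : ℤ) * (j : ℤ) -
              ((((a + 2) * j) % m : ℕ) : ℤ)) := by push_cast; push_cast at h'; linarith
          rw [e]; exact h3)
      omega
    · intro h
      have h' : (i : ℤ) + ((((a + 2) * j) % m : ℕ) : ℤ) = (j : ℤ) + ((((a + 2) * i) % m : ℕ) : ℤ) := by
        exact_mod_cast h
      have h4 := eq_of_dvd_mul (m := m) (t := a + 1) (by omega) (by omega) (i := (i : ℤ))
        (j := (j : ℤ)) (by omega) (by omega) (by omega) (by omega)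
        (by
          have e : ((a + 1 : ℕ) : ℤ) * ((i : ℤ) - j) = ((a + 2 : ℕ) : ℤ) * (i : ℤ) -
              ((((a + 2) * i) % m : ℕ) : ℤ) - (((a + 2 : ℕ) : ℤ) * (j : ℤ) -
              ((((a + 2) * j) % m : ℕ) : ℤ)) := by push_cast; push_cast at h'; linarith
          rw [e]; exact h3)
      omega
  · intro a ha i hi hin
    change ((a + 2) * (m - i)) % m + ((a + 2) * i) % m = m
    have e1 : m - i < m := by omega
    have h1 := hpos (a + 2) i (by omega) (by omega) hi (by omega)
    have h2 := hpos (a + 2) (m - i) (by omega) (by omega) (by omega) (by omega)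
    have h3 := hlt (a + 2) i
    have h4 := hlt (a + 2) (m - i)
    have h5 := dvd_add (hdiv (a + 2) i) (hdiv (a + 2) (m - i))
    have h6 : (m : ℤ) ∣ ((((a + 2) * i) % m : ℕ) : ℤ) + ((((a + 2) * (m - i)) % m : ℕ) : ℤ) := by
      have h7 : (m : ℤ) ∣ ((a + 2 : ℕ) : ℤ) * m := dvd_mul_left _ _
      have h8 := dvd_sub h7 h5
      have e : ((a + 2 : ℕ) : ℤ) * m - (((a + 2 : ℕ) : ℤ) * (i : ℤ) -
          ((((a + 2) * i) % m : ℕ) : ℤ) + (((a + 2 : ℕ) : ℤ) * ((m - i : ℕ) : ℤ) -
          ((((a + 2) * (m - i)) % m : ℕ) : ℤ))) = ((((a + 2) * i) % m : ℕ) : ℤ) +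
          ((((a + 2) * (m - i)) % m : ℕ) : ℤ) := by
        rw [Nat.cast_sub (by omega)]; ring
      rw [e] at h8
      exact h8
    obtain ⟨q, hq⟩ := h6
    have hq1 : q = 1 := by
      have hx : 0 < (m : ℤ) * q := by rw [← hq]; omega
      have hy : (m : ℤ) * q < m * 2 := by rw [← hq]; omega
      have hz : 0 < q := by by_contra hc; push Not at hc; nlinarith
      have hw := lt_of_mul_lt_mul_left hy hm0.le
      omega
    rw [hq1] at hq
    omega
  · intro a ha b hb i hi hin
    intro h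
    have h3 := dvd_sub (hdiv (a + 2) i) (hdiv (b + 2) i)
    rw [h] at h3
    have h4 := eq_of_dvd_mul (m := m) (t := a - b) (by omega) (by omega) (i := (i : ℤ))
      (j := 0) (by omega) (by omega) le_rfl hm0
      (by
        have e : ((a - b : ℕ) : ℤ) * ((i : ℤ) - 0) = ((a + 2 : ℕ) : ℤ) * (i : ℤ) -
            ((((b + 2) * i) % m : ℕ) : ℤ) - (((b + 2 : ℕ) : ℤ) * (i : ℤ) -
            ((((b + 2) * i) % m : ℕ) : ℤ)) := by
          rw [Nat.cast_sub hb.le]; push_cast; ring
        rw [e]; exact h3)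
    omega

theorem main : (SQ 20 = 18 ∧ SQ 24 = 22 ∧ SQ 26 = 24) ∧
    ∀ n : ℕ, 5 ≤ (n + 1).minFac → (n + 1).minFac - 3 ≤ SQ n := by
  refine ⟨⟨SQ_eq (by norm_num) (hasPacking_of_chk _ _ _ chk20), SQ_eq (by norm_num) (hasPacking_of_chk _ _ _ chk24), SQ_eq (by norm_num) (hasPacking_of_chk _ _ _ chk26)⟩, fun n hn => ?_⟩
  have hpm : (n + 1).minFac ≤ n + 1 := Nat.minFac_le (by omega)
  exact (lower n hn).le_SQ (by omega)

end Pool.Agent.H143.QueensSQ
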