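import Mathlib

/-! # The reliability polynomial of a matroid -/

set_option autoImplicit false
open Polynomial

namespace Pool.Agent.H143.RelRoot

/-- The number `F_i` of independent sets of size `i` of a matroid with finite ground set. -/
noncomputable def numIndep {α : Type*} (M : Matroid α) (i : ℕ) : ℕ :=
  {I : Set α | M.Indep I ∧ I.ncard = i}.ncard

/-- The reliability polynomial of a matroid with finite ground set:
`∑ F_i p ^ i (1 - p) ^ (m - i)`, `F_i` the number of independent sets of size `i`, `m` the number of
elements, `i` up to the rank. -/
noncomputable def relPoly {α : Type*} (M : Matroid α) : ℂ[X] :=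
  ∑ i ∈ Finset.range (M.eRank.toNat + 1), C (numIndep M i : ℂ) * X ^ i *
    (1 - X) ^ (M.E.ncard - i)

end Pool.Agent.H143.RelRoot
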