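import Pool.Agent.H143.RelDefs

/-!
# A matroid of order 13 and rank 10 with a reliability root outside of the unit disk (MP_a27c8d_co)

The matroid is the dual of the matroid of rank 3 obtained from the non-Fano matroid by replacing each
of the three points of the relaxed circuit-hyperplane by a class of three parallel elements.
-/

set_option autoImplicit false
open Polynomial

namespace Pool.Agent.H143.RelRoot

/-! ### a root outside of the unit disk -/

theorem prod_lower (w : ℂ) (hw : 1 ≤ ‖w‖) (s : Multiset ℂ) (hs : ∀ z ∈ s, ‖z‖ ≤ 1) :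
    (‖w‖ - 1) ^ (Multiset.card s) ≤ ‖(s.map (fun z => w - z)).prod‖ := by
  induction s using Multiset.induction with
  | empty => simp
  | cons a s ih =>
    rw [Multiset.card_cons, Multiset.map_cons, Multiset.prod_cons, norm_mul, pow_succ, mul_comm]
    have h1 : ‖w‖ - 1 ≤ ‖w - a‖ := by
      have h2 := norm_sub_norm_le w a
      have h3 := hs a (by simp)
      linarith
    exact mul_le_mul h1 (ih (fun z hz => hs z (by simp [hz]))) (pow_nonneg (by linarith) _)
      (norm_nonneg _)

theorem root_outside (P : ℂ[X]) (w : ℂ) (hw : 1 ≤ ‖w‖)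
    (h : ‖P.eval w‖ < ‖P.leadingCoeff‖ * (‖w‖ - 1) ^ P.natDegree) :
    ∃ z : ℂ, 1 < ‖z‖ ∧ P.eval z = 0 := by
  by_contra hcon
  push Not at hcon
  have hP0 : P ≠ 0 := by
    rintro rfl
    simp at h
  have hs : ∀ z ∈ P.roots, ‖z‖ ≤ 1 := by
    intro z hz
    by_contra hz1
    push Not at hz1
    exact hcon z hz1 ((Polynomial.mem_roots hP0).1 hz)
  have hspl := IsAlgClosed.splits P
  have h1 := hspl.eq_prod_roots
  have h2 : P.natDegree = Multiset.card P.roots := hspl.natDegree_eq_card_roots
  have h3 : P.eval w = P.leadingCoeff * (P.roots.map (fun z => w - z)).prod := by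
    conv_lhs => rw [h1]
    rw [eval_mul, eval_C, eval_multiset_prod, Multiset.map_map]
    simp
  rw [h3, norm_mul, h2] at h
  have h4 := prod_lower w hw P.roots hs
  have h5 := mul_le_mul_of_nonneg_left h4 (norm_nonneg P.leadingCoeff)
  linarith

/-- the polynomial with coefficients the H-vector -/
noncomputable def P : ℂ[X] :=
  C 9 * X ^ 10 + C 19 * X ^ 9 + C 30 * X ^ 8 + C 33 * X ^ 7 + C 28 * X ^ 6 + C 21 * X ^ 5 +
    C 15 * X ^ 4 + C 10 * X ^ 3 + C 6 * X ^ 2 + C 3 * X + C 1

theorem P_deg : P.natDegree = 10 := by
  unfold P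
  compute_degree!

theorem P_lc : P.leadingCoeff = 9 := by
  rw [leadingCoeff, P_deg]
  unfold P
  simp [coeff_one]

/-- the approximate root -/
noncomputable def W : ℂ := ⟨-21656206733264350231, 98862392374147542565⟩

theorem W1 : (⟨9, 0⟩ : ℂ) * W + (19 * 10 ^ 20 : ℝ) = ⟨1705094139400620847921, 889761531367327883085⟩ := by
  apply Complex.ext
  · simp only [W, Complex.add_re, Complex.mul_re, Complex.ofReal_re]
    norm_num
  · simp only [W, Complex.add_im, Complex.mul_im, Complex.ofReal_im]
    norm_num

theorem W2 : (⟨1705094139400620847921, 889761531367327883085⟩ : ℂ) * W + (30 * 10 ^ 40 : ℝ) = ⟨175110175184003536579209439318359286767224, 149300826177686879945028238633897478514730⟩ := by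
  apply Complex.ext
  · simp only [W, Complex.add_re, Complex.mul_re, Complex.ofReal_re]
    norm_num
  · simp only [W, Complex.add_im, Complex.mul_im, Complex.ofReal_im]
    norm_num

theorem W3 : (⟨175110175184003536579209439318359286767224, 149300826177686879945028238633897478514730⟩ : ℂ) * W + (33 * 10 ^ 60 : ℝ) = ⟨14447540985754203486289082603648646935179427718886781437888806, 14078521290595518514181866964234468018210515082958206374486930⟩ := by
  apply Complex.ext
  · simp only [W, Complex.add_re, Complex.mul_re, Complex.ofReal_re]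
    norm_num
  · simp only [W, Complex.add_im, Complex.mul_im, Complex.ofReal_im]
    norm_num

theorem W4 : (⟨14447540985754203486289082603648646935179427718886781437888806, 14078521290595518514181866964234468018210515082958206374486930⟩ : ℂ) * W + (28 * 10 ^ 80 : ℝ) = ⟨1095284769746552941962557416140545894277100825474128523473051796310553811770410364, 1123431098207410258654571970412155581124089953255218894181843344727364964170046560⟩ := by
  apply Complex.ext
  · simp only [W, Complex.add_re, Complex.mul_re, Complex.ofReal_re]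
    norm_num
  · simp only [W, Complex.add_im, Complex.mul_im, Complex.ofReal_im]
    norm_num

theorem W5 : (⟨1095284769746552941962557416140545894277100825474128523473051796310553811770410364, 1123431098207410258654571970412155581124089953255218894181843344727364964170046560⟩ : ℂ) * W + (21 * 10 ^ 100 : ℝ) = ⟨75215200558272331761504811089538442926037744016022184076573383036656497931560315652017065483679979516, 83953216554753681062308116097295794455146988385663031847474739480503837236301008024828150660790388300⟩ := by
  apply Complex.ext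
  · simp only [W, Complex.add_re, Complex.mul_re, Complex.ofReal_re]
    norm_num
  · simp only [W, Complex.add_im, Complex.mul_im, Complex.ofReal_im]
    norm_num

theorem W6 : (⟨75215200558272331761504811089538442926037744016022184076573383036656497931560315652017065483679979516, 83953216554753681062308116097295794455146988385663031847474739480503837236301008024828150660790388300⟩ : ℂ) * W + (15 * 10 ^ 120 : ℝ) = ⟨5071308231118276669403352203266054816689566417251746869008240034131752476288668976924854023424468624996627506439742142304, 5617846456459863774603614378335595036343305818459354242422409747567941690573137101393971375250087092057682555111253401240⟩ := by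
  apply Complex.ext
  · simp only [W, Complex.add_re, Complex.mul_re, Complex.ofReal_re]
    norm_num
  · simp only [W, Complex.add_im, Complex.mul_im, Complex.ofReal_im]
    norm_num

theorem W7 : (⟨5071308231118276669403352203266054816689566417251746869008240034131752476288668976924854023424468624996627506439742142304, 5617846456459863774603614378335595036343305818459354242422409747567941690573137101393971375250087092057682555111253401240⟩ : ℂ) * W + (10 * 10 ^ 140 : ℝ) = ⟨334780959862548024226928520986523311643963386323342231715621035282545159435350173707864605570005429930746998430097349915036164913325578947176, 379700419938227806489247604811097623252257618890783235818764110913831777233180398597005036380305450734824745173128488877719897347072797483320⟩ := by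
  apply Complex.ext
  · simp only [W, Complex.add_re, Complex.mul_re, Complex.ofReal_re]
    norm_num
  · simp only [W, Complex.add_im, Complex.mul_im, Complex.ofReal_im]
    norm_num

theorem W8 : (⟨334780959862548024226928520986523311643963386323342231715621035282545159435350173707864605570005429930746998430097349915036164913325578947176, 379700419938227806489247604811097623252257618890783235818764110913831777233180398597005036380305450734824745173128488877719897347072797483320⟩ : ℂ) * W + (6 * 10 ^ 160 : ℝ) = ⟨15211822422294313077900273754450769289053812645067380492698836536407441817163599234356033258816268289585403141689849651611829811346107265070906969707002710086544, 24874375822435411959370615243761012932757550095276836495731651188760724299784380861240578600102805435627176700169331930193482528624279114609087569451708485899520⟩ := by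
  apply Complex.ext
  · simp only [W, Complex.add_re, Complex.mul_re, Complex.ofReal_re]
    norm_num
  · simp only [W, Complex.add_im, Complex.mul_im, Complex.ofReal_im]
    norm_num

theorem W9 : (⟨15211822422294313077900273754450769289053812645067380492698836536407441817163599234356033258816268289585403141689849651611829811346107265070906969707002710086544, 24874375822435411959370615243761012932757550095276836495731651188760724299784380861240578600102805435627176700169331930193482528624279114609087569451708485899520⟩ : ℂ) * W + (3 * 10 ^ 180 : ℝ) = ⟨211429326213469600432255641262386670642752905831565258932549500939344803742210439408868823925502226765037216507867627203986282801633139709936335904636174253782669353867882550539536, 965192531867142168187894051672623064252936417876976928025744081819480055364393043779974848359733720222947948891243918659464336237499117741436607359176648056870020636863217718956240⟩ := by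
  apply Complex.ext
  · simp only [W, Complex.add_re, Complex.mul_re, Complex.ofReal_re]
    norm_num
  · simp only [W, Complex.add_im, Complex.mul_im, Complex.ofReal_im]
    norm_num

theorem W10 : (⟨211429326213469600432255641262386670642752905831565258932549500939344803742210439408868823925502226765037216507867627203986282801633139709936335904636174253782669353867882550539536, 965192531867142168187894051672623064252936417876976928025744081819480055364393043779974848359733720222947948891243918659464336237499117741436607359176648056870020636863217718956240⟩ : ℂ) * W + (1 * 10 ^ 200 : ℝ) = ⟨1300255939216929022650161362073649659141787961058641224630043573046025299543801073668803344367045721670640145812061278111070383513985200207126893123648233633054102886266103711411584, -5977029209639264332969800188002161553326657004228017610118951007419635558497667184831093241362797435871892856727955507939648845635910572635044026781143739400630531645249485847541600⟩ := by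
  apply Complex.ext
  · simp only [W, Complex.add_re, Complex.mul_re, Complex.ofReal_re]
    norm_num
  · simp only [W, Complex.add_im, Complex.mul_im, Complex.ofReal_im]
    norm_num

/-! ### the matroid -/

/-- the nine hyperplanes, as bit masks -/
def mask (j : Fin 9) : ℕ := ![1543, 6151, 2616, 5176, 3520, 5056, 63, 455, 504] j

/-- membership in a hyperplane -/
def inH (j : Fin 9) (x : Fin 13) : Bool := (mask j).testBit x

theorem P1 : ∀ x y : Fin 13, ∃ j, inH j x = true ∧ inH j y = true := by decide +kernel

theorem P2 : ∀ x y : Fin 13, ∀ j k : Fin 9, inH j x = true → inH j y = true → inH k x = true →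
    inH k y = true → j = k ∨ ∀ i, inH i x = inH i y := by decide +kernel

/-- the bases: three elements which are not in a hyperplane -/
def Bs (B : Set (Fin 13)) : Prop := B.ncard = 3 ∧ ∀ j, ∃ x ∈ B, inH j x = false

/-- a line and a point outside of it -/
theorem Bs_of (x y b : Fin 13) (j : Fin 9) (hx : inH j x = true) (hy : inH j y = true)
    (hxy : ¬ ∀ i, inH i x = inH i y) (hb : inH j b = false) : Bs {b, x, y} := by
  have hne : x ≠ y := by
    rintro rfl
    exact hxy fun _ => rfl
  have hbx : b ≠ x := by
    rintro rfl
    rw [hx] at hb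
    exact absurd hb (by simp)
  have hby : b ≠ y := by
    rintro rfl
    rw [hy] at hb
    exact absurd hb (by simp)
  refine ⟨Set.ncard_eq_three.2 ⟨b, x, y, hbx, hby, hne, rfl⟩, ?_⟩
  intro k
  by_contra hcon
  push Not at hcon
  have h1 : inH k b = true := by simpa using hcon b (by simp)
  have h2 : inH k x = true := by simpa using hcon x (by simp)
  have h3 : inH k y = true := by simpa using hcon y (by simp)
  rcases P2 x y j k hx hy h2 h3 with h | h
  · rw [h] at hb
    rw [hb] at h1
    exact absurd h1 (by simp)
  · exact hxy h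

theorem Bs_exchange : Matroid.ExchangeProperty Bs := by
  intro B1 B2 h1 h2 a ha
  obtain ⟨ha1, ha2⟩ := ha
  have h3 : (B1 \ {a}).ncard = 2 := by
    rw [Set.ncard_sdiff_singleton_of_mem ha1, h1.1]
  obtain ⟨x, y, hxy, hB⟩ := Set.ncard_eq_two.1 h3
  have hBa : B1 = insert a {x, y} := by
    rw [← hB, Set.insert_sdiff_singleton, Set.insert_eq_of_mem ha1]
  have hpar : ¬ ∀ i, inH i x = inH i y := by
    intro hp
    obtain ⟨i, hi1, hi2⟩ := P1 a x
    obtain ⟨z, hz, hz2⟩ := h1.2 i
    rw [hBa] at hz
    simp only [Set.mem_insert_iff, Set.mem_singleton_iff] at hz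
    rcases hz with rfl | rfl | rfl
    · rw [hi1] at hz2; exact absurd hz2 (by simp)
    · rw [hi2] at hz2; exact absurd hz2 (by simp)
    · rw [← hp i, hi2] at hz2; exact absurd hz2 (by simp)
  obtain ⟨j, hj1, hj2⟩ := P1 x y
  obtain ⟨b, hb, hbj⟩ := h2.2 j
  refine ⟨b, ⟨hb, ?_⟩, ?_⟩
  · intro hb1
    rw [hBa] at hb1
    simp only [Set.mem_insert_iff, Set.mem_singleton_iff] at hb1
    rcases hb1 with rfl | rfl | rfl
    · exact ha2 hb
    · rw [hj1] at hbj; exact absurd hbj (by simp)
    · rw [hj2] at hbj; exact absurd hbj (by simp)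
  · rw [hB]
    exact Bs_of x y b j hj1 hj2 hpar hbj

/-- a set which is in no hyperplane contains a basis -/
theorem exists_Bs (S : Set (Fin 13)) (hS : ∀ j, ∃ x ∈ S, inH j x = false) :
    ∃ B, Bs B ∧ B ⊆ S := by
  obtain ⟨x, hx, -⟩ := hS 0
  have h1 : ∃ y ∈ S, ¬ ∀ i, inH i x = inH i y := by
    by_contra hcon
    push Not at hcon
    obtain ⟨j, hj, -⟩ := P1 x x
    obtain ⟨y, hy, hyj⟩ := hS j
    have := hcon y hy j
    rw [hj, hyj] at this
    exact absurd this (by simp)
  obtain ⟨y, hy, hxy⟩ := h1
  obtain ⟨j, hj1, hj2⟩ := P1 x y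
  obtain ⟨b, hb, hbj⟩ := hS j
  refine ⟨{b, x, y}, Bs_of x y b j hj1 hj2 hxy hbj, ?_⟩
  intro z hz
  simp only [Set.mem_insert_iff, Set.mem_singleton_iff] at hz
  rcases hz with rfl | rfl | rfl
  · exact hb
  · exact hx
  · exact hy

theorem exists_Bs' : ∃ B, Bs B := by
  obtain ⟨B, hB, -⟩ := exists_Bs Set.univ (by
    have : ∀ j : Fin 9, ∃ x : Fin 13, inH j x = false := by decide +kernel
    intro j
    obtain ⟨x, hx⟩ := this j
    exact ⟨x, trivial, hx⟩)
  exact ⟨B, hB⟩

/-- the matroid of rank three -/
def N : Matroid (Fin 13) :=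
  Matroid.ofIsBaseOfFinite (E := Set.univ) Set.finite_univ Bs exists_Bs' Bs_exchange
    (fun _ _ => Set.subset_univ _)

theorem N_base (B : Set (Fin 13)) : N.IsBase B ↔ Bs B := Iff.rfl

theorem N_E : N.E = Set.univ := rfl

theorem N_dual_indep (I : Set (Fin 13)) :
    N✶.Indep I ↔ ∀ j, ∃ x, x ∉ I ∧ inH j x = false := by
  rw [Matroid.dual_indep_iff_exists (by rw [N_E]; exact Set.subset_univ _)]
  constructor
  · rintro ⟨B, hB, hd⟩ j
    obtain ⟨x, hx, hj⟩ := ((N_base B).1 hB).2 j
    exact ⟨x, fun h => Set.disjoint_left.1 hd h hx, hj⟩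
  · intro h
    obtain ⟨B, hB, hs⟩ := exists_Bs Iᶜ h
    exact ⟨B, (N_base B).2 hB, by
      rw [Set.disjoint_left]
      intro x hx hxB
      exact hs hxB hx⟩

theorem N_eRank : N.eRank = 3 := by
  obtain ⟨B, hB⟩ := exists_Bs'
  rw [← ((N_base B).2 hB).encard_eq_eRank, ← B.toFinite.cast_ncard_eq, hB.1]
  rfl

theorem N_dual_eRank : N✶.eRank = 10 := by
  obtain ⟨B, hB⟩ := exists_Bs'
  have h1 : N✶.IsBase Bᶜ := by
    rw [Matroid.dual_isBase_iff (by rw [N_E]; exact Set.subset_univ _), N_E,
      ← Set.compl_eq_univ_sdiff, compl_compl]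
    exact hB
  rw [← h1.encard_eq_eRank, ← (Bᶜ).toFinite.cast_ncard_eq]
  have h2 := Set.ncard_add_ncard_compl B
  rw [hB.1, Nat.card_eq_fintype_card, Fintype.card_fin] at h2
  have h3 : (Bᶜ).ncard = 10 := by omega
  rw [h3]
  rfl

/-! ### counting -/

/-- no hyperplane contains the complement -/
def good (s : ℕ) : Bool :=
  ((s ||| 1543) != 8191) && ((s ||| 6151) != 8191) && ((s ||| 2616) != 8191) &&
  ((s ||| 5176) != 8191) && ((s ||| 3520) != 8191) && ((s ||| 5056) != 8191) &&
  ((s ||| 63) != 8191) && ((s ||| 455) != 8191) && ((s ||| 504) != 8191)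

/-- number of ones -/
def pc (s : ℕ) : ℕ :=
  s % 2 + s / 2 % 2 + s / 4 % 2 + s / 8 % 2 + s / 16 % 2 + s / 32 % 2 + s / 64 % 2 + s / 128 % 2 +
    s / 256 % 2 + s / 512 % 2 + s / 1024 % 2 + s / 2048 % 2 + s / 4096 % 2

/-- the indicator -/
def leaf (i s : ℕ) : ℕ := cond (good s && Nat.beq (pc s) i) 1 0

/-- sum over the numbers with given leading bits -/
def tree (f : ℕ → ℕ) (n : ℕ) : ℕ → ℕ :=
  Nat.rec f (fun _ ih s => ih (2 * s) + ih (2 * s + 1)) n

theorem tree_eq (f : ℕ → ℕ) (n : ℕ) : ∀ s, tree f n s = ∑ k ∈ Finset.range (2 ^ n), f (s * 2 ^ n + k) := by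
  induction n with
  | zero => intro s; simp [tree]
  | succ n ih =>
    intro s
    have h1 : tree f (n + 1) s = tree f n (2 * s) + tree f n (2 * s + 1) := rfl
    rw [h1, ih, ih, pow_succ, mul_two, Finset.sum_range_add]
    congr 1
    · apply Finset.sum_congr rfl
      intro k _
      congr 1
      ring
    · apply Finset.sum_congr rfl
      intro k _
      congr 1
      ring


/-- the set with given indicator bits -/
def phi (s : ℕ) : Set (Fin 13) := {x | s.testBit x = true}

theorem testBit_big (s : ℕ) (hs : s < 8192) (i : ℕ) (hi : 13 ≤ i) : s.testBit i = false := by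
  apply Nat.testBit_lt_two_pow
  calc s < 2 ^ 13 := by simpa using hs
    _ ≤ 2 ^ i := Nat.pow_le_pow_right (by norm_num) hi

theorem phi_inj {s t : ℕ} (hs : s < 8192) (ht : t < 8192) (h : phi s = phi t) : s = t := by
  apply Nat.eq_of_testBit_eq
  intro i
  by_cases hi : i < 13
  · have h1 : (⟨i, hi⟩ : Fin 13) ∈ phi s ↔ (⟨i, hi⟩ : Fin 13) ∈ phi t := by rw [h]
    simp only [phi, Set.mem_ofPred_eq] at h1
    exact Bool.eq_iff_iff.2 h1
  · rw [testBit_big s hs i (by omega), testBit_big t ht i (by omega)]

theorem phi_surj (I : Set (Fin 13)) : ∃ s, s < 8192 ∧ phi s = I := by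
  classical
  have hinj : Function.Injective (fun s : Fin 8192 => phi s) := by
    intro s t h
    exact Fin.ext (phi_inj s.2 t.2 h)
  have hcard : Nat.card (Set (Fin 13)) ≤ Nat.card (Fin 8192) := by
    rw [Nat.card_eq_fintype_card, Nat.card_eq_fintype_card, Fintype.card_set, Fintype.card_fin,
      Fintype.card_fin]
    norm_num
  obtain ⟨s, hs⟩ := (hinj.bijective_of_nat_card_le hcard).2 I
  exact ⟨s, s.2, hs⟩

theorem tb (s k : ℕ) : (if s.testBit k = true then 1 else 0) = s / 2 ^ k % 2 := by
  rw [Nat.testBit_eq_decide_div_mod_eq]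
  have h := Nat.mod_lt (s / 2 ^ k) (show 0 < 2 by norm_num)
  by_cases h1 : s / 2 ^ k % 2 = 1
  · simp [h1]
  · have h2 : s / 2 ^ k % 2 = 0 := by omega
    simp [h2]

theorem phi_ncard (s : ℕ) : (phi s).ncard = pc s := by
  classical
  have h1 : (phi s).ncard = ∑ x : Fin 13, s / 2 ^ (x : ℕ) % 2 := by
    rw [Set.ncard_eq_toFinset_card']
    have h2 : (phi s).toFinset = Finset.univ.filter (fun x : Fin 13 => s.testBit x = true) := by
      ext x
      simp [phi]
    rw [h2, Finset.card_filter]
    exact Finset.sum_congr rfl fun x _ => tb s x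
  rw [h1]
  simp only [Fin.sum_univ_succ, pc]
  simp
  ring

theorem lor_iff (s m : ℕ) (hs : s < 8192) (hm : m < 8192) :
    s ||| m = 8191 ↔ ∀ x : Fin 13, s.testBit x = true ∨ m.testBit x = true := by
  constructor
  · intro h x
    have h1 : (s ||| m).testBit x = true := by
      rw [h]
      have h2 := Nat.testBit_two_pow_sub_one 13 (x : ℕ)
      simpa using h2
    rw [Nat.testBit_lor, Bool.or_eq_true] at h1
    exact h1
  · intro h
    apply Nat.eq_of_testBit_eq
    intro i
    have h2 := Nat.testBit_two_pow_sub_one 13 i
    norm_num at h2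
    rw [h2, Nat.testBit_lor]
    by_cases hi : i < 13
    · have h3 := h ⟨i, hi⟩
      simp only [hi, decide_true, Bool.or_eq_true]
      exact h3
    · rw [testBit_big s hs i (by omega), testBit_big m hm i (by omega)]
      simp [hi]

theorem good_iff (s : ℕ) (hs : s < 8192) :
    good s = true ↔ ∀ j, ∃ x, x ∉ phi s ∧ inH j x = false := by
  have h1 : good s = true ↔ ∀ j : Fin 9, s ||| mask j ≠ 8191 := by
    simp [good, mask, Fin.forall_fin_succ, and_assoc]
  have hm : ∀ j : Fin 9, mask j < 8192 := by decide
  rw [h1]
  apply forall_congr'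
  intro j
  rw [Ne, lor_iff s (mask j) hs (hm j)]
  push Not
  apply exists_congr
  intro x
  simp [phi, inH]

theorem numIndep_eq (i : ℕ) : numIndep N✶ i = tree (leaf i) 13 0 := by
  classical
  have h1 : {I : Set (Fin 13) | N✶.Indep I ∧ I.ncard = i} =
      phi '' ((Finset.range 8192).filter (fun s => good s = true ∧ pc s = i) : Finset ℕ) := by
    ext I
    simp only [Set.mem_ofPred_eq, Set.mem_image, Finset.coe_filter, Finset.mem_range]
    constructor
    · rintro ⟨h1, h2⟩
      obtain ⟨s, hs, rfl⟩ := phi_surj I
      refine ⟨s, ⟨hs, (good_iff s hs).2 ((N_dual_indep _).1 h1), ?_⟩, rfl⟩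
      rw [← phi_ncard, h2]
    · rintro ⟨s, ⟨hs, h1, h2⟩, rfl⟩
      exact ⟨(N_dual_indep _).2 ((good_iff s hs).1 h1), by rw [phi_ncard, h2]⟩
  rw [numIndep, h1, Set.InjOn.ncard_image ?_, Set.ncard_coe_finset, Finset.card_filter, tree_eq]
  · apply Finset.sum_congr (by norm_num)
    intro s _
    rw [zero_mul, zero_add, leaf]
    by_cases hg : good s = true
    · by_cases hp : pc s = i
      · simp [hg, hp]
      · have : Nat.beq (pc s) i = false := by
          rw [← Bool.not_eq_true, Nat.beq_eq]
          exact hp
        simp [hg, hp, this]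
    · simp [hg]
  · intro s hs t ht h
    simp only [Finset.coe_filter, Finset.mem_range, Set.mem_ofPred_eq] at hs ht
    exact phi_inj hs.1 ht.1 h

theorem cnt0 : numIndep N✶ 0 = 1 := by
  rw [numIndep_eq]
  decide +kernel

theorem cnt1 : numIndep N✶ 1 = 13 := by
  rw [numIndep_eq]
  decide +kernel

theorem cnt2 : numIndep N✶ 2 = 78 := by
  rw [numIndep_eq]
  decide +kernel

theorem cnt3 : numIndep N✶ 3 = 286 := by
  rw [numIndep_eq]
  decide +kernel

theorem cnt4 : numIndep N✶ 4 = 715 := by
  rw [numIndep_eq]
  decide +kernel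

theorem cnt5 : numIndep N✶ 5 = 1287 := by
  rw [numIndep_eq]
  decide +kernel

theorem cnt6 : numIndep N✶ 6 = 1716 := by
  rw [numIndep_eq]
  decide +kernel

theorem cnt7 : numIndep N✶ 7 = 1713 := by
  rw [numIndep_eq]
  decide +kernel

theorem cnt8 : numIndep N✶ 8 = 1263 := by
  rw [numIndep_eq]
  decide +kernel

theorem cnt9 : numIndep N✶ 9 = 640 := by
  rw [numIndep_eq]
  decide +kernel

theorem cnt10 : numIndep N✶ 10 = 175 := by
  rw [numIndep_eq]
  decide +kernel

theorem Rel_eq (z : ℂ) : (relPoly N✶).eval z = (1 - z) ^ 3 * P.eval z := by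
  have h1 : (N✶.eRank.toNat + 1) = 11 := by
    rw [N_dual_eRank]
    rfl
  have h2 : N✶.E.ncard = 13 := by
    rw [Matroid.dual_ground, N_E, Set.ncard_univ, Nat.card_eq_fintype_card, Fintype.card_fin]
  rw [relPoly, h1, h2]
  simp only [Finset.sum_range_succ, Finset.sum_range_zero, cnt0, cnt1, cnt2, cnt3, cnt4, cnt5,
    cnt6, cnt7, cnt8, cnt9, cnt10]
  simp only [P, eval_add, eval_sub, eval_one, eval_zero, eval_mul, eval_pow, eval_C, eval_X]
  push_cast
  ring

theorem P_eval_W : (10 ^ 200 : ℂ) * P.eval (W / 10 ^ 20) = ⟨1300255939216929022650161362073649659141787961058641224630043573046025299543801073668803344367045721670640145812061278111070383513985200207126893123648233633054102886266103711411584, -5977029209639264332969800188002161553326657004228017610118951007419635558497667184831093241362797435871892856727955507939648845635910572635044026781143739400630531645249485847541600⟩ := by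
  have h : (10 ^ 200 : ℂ) * P.eval (W / 10 ^ 20) = (((((((((((9 * W + 19 * 10 ^ 20) * W +
      30 * 10 ^ 40) * W + 33 * 10 ^ 60) * W + 28 * 10 ^ 80) * W + 21 * 10 ^ 100) * W +
      15 * 10 ^ 120) * W + 10 * 10 ^ 140) * W + 6 * 10 ^ 160) * W + 3 * 10 ^ 180) * W +
      1 * 10 ^ 200)) := by
    simp only [P, eval_add, eval_mul, eval_pow, eval_C, eval_X]
    field_simp
  rw [h]
  have c1 := W1
  have c2 := W2
  have c3 := W3
  have c4 := W4
  have c5 := W5
  have c6 := W6
  have c7 := W7
  have c8 := W8
  have c9 := W9
  have c10 := W10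
  push_cast at c1 c2 c3 c4 c5 c6 c7 c8 c9 c10
  have e9 : (9 : ℂ) = ⟨9, 0⟩ := by apply Complex.ext <;> simp
  rw [e9, c1, c2, c3, c4, c5, c6, c7, c8, c9, c10]

theorem W_norm : (1.012 : ℝ) ≤ ‖W / 10 ^ 20‖ := by
  rw [norm_div, norm_pow, Complex.norm_ofNat, le_div_iff₀ (by positivity)]
  apply le_of_sq_le_sq _ (norm_nonneg _)
  rw [← Complex.normSq_eq_norm_sq]
  simp only [W, Complex.normSq_mk]
  norm_num

theorem exists_root : ∃ z : ℂ, 1 < ‖z‖ ∧ P.eval z = 0 := by
  apply root_outside P (W / 10 ^ 20) (by linarith [W_norm])
  rw [P_deg, P_lc, Complex.norm_ofNat]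
  have h1 : (9 : ℝ) * (1.012 - 1) ^ 10 ≤ 9 * (‖W / 10 ^ 20‖ - 1) ^ 10 := by
    have := W_norm
    gcongr
  refine lt_of_lt_of_le ?_ h1
  have h2 : ‖(10 ^ 200 : ℂ) * P.eval (W / 10 ^ 20)‖ = 10 ^ 200 * ‖P.eval (W / 10 ^ 20)‖ := by
    rw [norm_mul, norm_pow, Complex.norm_ofNat]
  have h3 : ‖(10 ^ 200 : ℂ) * P.eval (W / 10 ^ 20)‖ < 10 ^ 200 * (9 * (1.012 - 1) ^ 10) := by
    rw [P_eval_W]
    apply lt_of_pow_lt_pow_left₀ 2 (by norm_num)
    rw [← Complex.normSq_eq_norm_sq, Complex.normSq_mk]
    norm_num
  rw [h2] at h3
  exact lt_of_mul_lt_mul_left h3 (by positivity)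

/-- There is a matroid of order 13 and rank 10 with a reliability root outside of the unit disk. -/
theorem main : ∃ M : Matroid (Fin 13), M.E = Set.univ ∧ M.eRank = 10 ∧
    ∃ z : ℂ, 1 < ‖z‖ ∧ (relPoly M).IsRoot z := by
  obtain ⟨z, hz, h0⟩ := exists_root
  exact ⟨N✶, by rw [Matroid.dual_ground, N_E], N_dual_eRank, z, hz, by
    rw [IsRoot.def, Rel_eq, h0, mul_zero]⟩

end Pool.Agent.H143.RelRoot
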